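import Pool.Agent.helper66.PX.Spec

set_option autoImplicit false

open Polynomial

noncomputable section

namespace Pool.Agent.PX

universe u v w

/-- sequences in `A`. -/
def SQ_I {K : Type u} {U : Type v} [Field K] [Ring U] [Algebra K U] (A : Submodule K U) :
    Submodule K (ℕ → U) where
  carrier := {x | ∀ n, x n ∈ A}
  add_mem' := fun hx hy n => A.add_mem (hx n) (hy n)
  zero_mem' := fun _ => A.zero_mem
  smul_mem' := fun c _ hx n => A.smul_mem c (hx n)

/-- bounded sequences. -/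
def SQ_W {K : Type u} {U : Type v} [Field K] [Ring U] [Algebra K U] (T : ℕ → Submodule K U)
    (hT : Monotone T) : Submodule K (ℕ → U) where
  carrier := {x | ∃ k, ∀ n, x n ∈ T k}
  add_mem' := by
    rintro x y ⟨k, hk⟩ ⟨l, hl⟩
    exact ⟨max k l, fun n => (T _).add_mem (hT (le_max_left k l) (hk n)) (hT (le_max_right k l) (hl n))⟩
  zero_mem' := ⟨0, fun n => (T 0).zero_mem⟩
  smul_mem' := by
    rintro c x ⟨k, hk⟩
    exact ⟨k, fun n => (T k).smul_mem c (hk n)⟩

theorem SQ_J {K : Type u} {U : Type v} [Field K] [Ring U] [Algebra K U] (A S : Submodule K U)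
    (hA : Two K U A) (hS : Two K U S) (x : U) (hx : x ∈ A) (h : ∀ a ∈ A, x * a * x ∈ S) :
    ∃ J : Submodule K U, Two K U J ∧ J ≤ A ∧ J ^ 3 ≤ S ∧ x ∈ J := by
  refine ⟨Submodule.span K {y : U | ∃ a b : U, y = a * x * b}, ?_, ?_, ?_, ?_⟩
  · intro a y hy
    constructor
    · refine Submodule.span_induction (p := fun y _ => a * y ∈ Submodule.span K {y : U | ∃ a b : U, y = a * x * b})
        ?_ ?_ ?_ ?_ hy
      · rintro y ⟨b, c, rfl⟩
        exact Submodule.subset_span ⟨a * b, c, by simp only [mul_assoc]⟩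
      · simp
      · intro y z _ _ hy hz
        rw [mul_add]
        exact Submodule.add_mem _ hy hz
      · intro r y _ hy
        rw [mul_smul_comm]
        exact Submodule.smul_mem _ _ hy
    · refine Submodule.span_induction (p := fun y _ => y * a ∈ Submodule.span K {y : U | ∃ a b : U, y = a * x * b})
        ?_ ?_ ?_ ?_ hy
      · rintro y ⟨b, c, rfl⟩
        exact Submodule.subset_span ⟨b, c * a, by simp only [mul_assoc]⟩
      · simp
      · intro y z _ _ hy hz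
        rw [add_mul]
        exact Submodule.add_mem _ hy hz
      · intro r y _ hy
        rw [smul_mul_assoc]
        exact Submodule.smul_mem _ _ hy
  · rw [Submodule.span_le]
    rintro y ⟨a, b, rfl⟩
    exact (hA b _ (hA a x hx).1).2
  · rw [pow_succ, pow_two, Submodule.span_mul_span, Submodule.span_mul_span, Submodule.span_le]
    rintro y hy
    obtain ⟨p, hp, q, hq, rfl⟩ := Set.mem_mul.1 hy
    obtain ⟨p1, hp1, p2, hp2, rfl⟩ := Set.mem_mul.1 hp
    obtain ⟨a1, b1, rfl⟩ := hp1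
    obtain ⟨a2, b2, rfl⟩ := hp2
    obtain ⟨a3, b3, rfl⟩ := hq
    have h1 : b1 * a2 * x * b2 * a3 ∈ A := (hA a3 _ (hA b2 _ (hA (b1 * a2) x hx).1).2).2
    have h2 := h _ h1
    have h3 := (hS b3 _ (hS a1 _ h2).1).2
    have h4 : a1 * x * b1 * (a2 * x * b2) * (a3 * x * b3)
        = a1 * (x * (b1 * a2 * x * b2 * a3) * x) * b3 := by
      simp only [mul_assoc]
    show a1 * x * b1 * (a2 * x * b2) * (a3 * x * b3) ∈ S
    rw [h4]
    exact h3
  · exact Submodule.subset_span ⟨1, 1, by simp⟩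

theorem SQ (hQU : QU_stmt.{u, v}) (hSEL : SEL_stmt.{u, v}) : SQ_stmt.{u, v} := by
  intro K U _ _ _ _ A T hA hT hex hnil hcl l n hMI
  have hmono : Monotone T := monotone_nat_of_le_succ fun k => (hT k).2.2.1
  have hTI : Two K (ℕ → U) (SQ_I A) := fun a x hx =>
    ⟨fun m => (hA (a m) (x m) (hx m)).1, fun m => (hA (a m) (x m) (hx m)).2⟩
  have hTW : Two K (ℕ → U) (SQ_W T hmono) := by
    rintro a x ⟨k, hk⟩
    exact ⟨⟨k, fun m => ((hT k).1 (a m) (x m) (hk m)).1⟩, ⟨k, fun m => ((hT k).1 (a m) (x m) (hk m)).2⟩⟩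
  have hWI : SQ_W T hmono ≤ SQ_I A := by
    rintro x ⟨k, hk⟩ m
    exact (hT k).2.1 (hk m)
  have hnot : ¬ SQ_I A ≤ SQ_W T hmono := by
    intro hle
    have h1 : ∀ k, ∃ y ∈ A, y ∉ T k := by
      intro k
      by_contra hc
      push Not at hc
      exact (hT k).2.2.2 (le_antisymm (hT k).2.1 hc)
    choose x hx hx' using h1
    obtain ⟨k, hk⟩ := hle (show x ∈ SQ_I A from hx)
    exact hx' k (hk k)
  have hM : MI K (ℕ → U) (SQ_I A) (SQ_W T hmono) n := by
    obtain ⟨s, c, hs, hl, hw, hE⟩ := hMI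
    refine ⟨s, c, hs, hl, hw, fun x hx => ⟨l, fun m => ?_⟩⟩
    have h1 : (EV c s x) m = EV c s (fun i => x i m) :=
      EV_map (Pi.evalAlgHom K (fun _ : ℕ => U) m) c s x
    rw [h1]
    exact hE _ fun i => hx i m
  have hSem : Sem K (ℕ → U) (SQ_I A) (SQ_W T hmono) := by
    intro x hx hxx
    obtain ⟨k, hk⟩ := hSEL K U A T (fun k => (hT k).2.2.1) (fun m a => x m * a * x m)
      (fun m => by
        obtain ⟨j, hj⟩ := hex (x m) (hx m)
        exact ⟨j, fun a _ => ((hT j).1 (x m * a) (x m) hj).1⟩)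
      (fun b hb => by
        obtain ⟨k, hk⟩ := hxx b hb
        exact ⟨k, hk⟩)
    obtain ⟨N, hN⟩ := hnil k
    obtain ⟨M, hM⟩ := hcl (3 * N)
    refine ⟨M, fun m => ?_⟩
    obtain ⟨J, hJ1, hJ2, hJ3, hJ4⟩ := SQ_J A (T k) hA (hT k).1 (x m) (hx m) (hk m)
    refine hM J hJ1 hJ2 ?_ hJ4
    rw [pow_mul, ← le_bot_iff, ← hN]
    exact pow_le_pow_left' hJ3 N
  obtain ⟨z, hz, hzW, hzc⟩ := hQU K (ℕ → U) n (SQ_I A) (SQ_W T hmono) hTI hTW hWI hSem hM hnot
  refine ⟨z, hz, fun k => ?_, ?_⟩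
  · by_contra hc
    push Not at hc
    exact hzW ⟨k, hc⟩
  · exact hSEL K U A T (fun k => (hT k).2.2.1) (fun m a => z m * a - a * z m)
      (fun m => by
        obtain ⟨j, hj⟩ := hex (z m) (hz m)
        exact ⟨j, fun a _ => (T j).sub_mem ((hT j).1 a (z m) hj).2 ((hT j).1 a (z m) hj).1⟩)
      (fun b hb => by
        obtain ⟨k, hk⟩ := hzc b hb
        exact ⟨k, hk⟩)

end Pool.Agent.PX
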